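import Pool.Agent.MP_39ed1d_co.H76.Wind

/-! The coefficients of `E ^ q` outside the unit circle and on it. -/

namespace Pool.Agent.MP_39ed1d_co.H88

open Pool.Agent.MP_39ed1d_co.H76 Filter Finset Metric Topology

theorem choose_two_add (a b : ℕ) : (a + b).choose 2 = a.choose 2 + b.choose 2 + a * b := by
  induction b with
  | zero => simp
  | succ b ih =>
    rw [← add_assoc, Nat.choose_succ_succ' (a + b) 1, Nat.choose_succ_succ' b 1, ih,
      Nat.choose_one_right, Nat.choose_one_right]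
    ring

theorem ee_mul (y : ℂ) (a b : ℕ) :
    ee y a * ee y b * y ^ (a * b) = ee y (a + b) * ((a + b).choose a : ℂ) := by
  have ha : (a.factorial : ℂ) ≠ 0 := by exact_mod_cast a.factorial_ne_zero
  have hb : (b.factorial : ℂ) ≠ 0 := by exact_mod_cast b.factorial_ne_zero
  have hab : ((a + b).factorial : ℂ) ≠ 0 := by exact_mod_cast (a + b).factorial_ne_zero
  have h : (((a + b).choose a : ℕ) : ℂ) * a.factorial * b.factorial = (a + b).factorial := by
    rw [add_comm a b]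
    exact_mod_cast (by rw [mul_right_comm]; exact Nat.add_choose_mul_factorial_mul_factorial b a :
      (b + a).choose a * a.factorial * b.factorial = (b + a).factorial)
  simp only [ee, choose_two_add, pow_add]
  field_simp
  linear_combination (-(y ^ a.choose 2 * y ^ b.choose 2 * y ^ (a * b))) * h

open PowerSeries in
theorem WW_rec (q y : ℂ) (n : ℕ) : ((n : ℂ) + 1) * (WW q y (n + 1) - q * ee y (n + 1)) =
    ∑ k ∈ range n, ee y (k + 1) * WW q y (n - k) * (q * (k + 1) - ((n - k : ℕ) : ℂ)) := by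
  have h : mk (ee y) * d⁄dX ℂ (mk (WW q y)) = C q * (d⁄dX ℂ (mk (ee y)) * mk (WW q y)) := by
    rw [ps_WW, ps_logderiv]; ring
  have h1 := congrArg (coeff n) h
  rw [coeff_C_mul, coeff_mul, coeff_mul, Finset.Nat.sum_antidiagonal_eq_sum_range_succ
      (fun i j => coeff i (mk (ee y)) * coeff j (d⁄dX ℂ (mk (WW q y)))),
    Finset.Nat.sum_antidiagonal_eq_sum_range_succ
      (fun i j => coeff i (d⁄dX ℂ (mk (ee y))) * coeff j (mk (WW q y))), sum_range_succ',
    sum_range_succ] at h1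
  simp only [coeff_derivative, coeff_mk, ee_zero, Nat.sub_self, WW_zero, Nat.sub_zero] at h1
  have e : ∑ k ∈ range n, ee y (k + 1) * WW q y (n - k) * (q * (k + 1) - ((n - k : ℕ) : ℂ)) =
      q * ∑ k ∈ range n, ee y (k + 1) * ((k : ℂ) + 1) * WW q y (n - k) -
        ∑ k ∈ range n, ee y (k + 1) *
          (WW q y (n - (k + 1) + 1) * (((n - (k + 1) : ℕ) : ℂ) + 1)) := by
    rw [mul_sum, ← sum_sub_distrib]
    refine sum_congr rfl fun k hk => ?_
    have hk' : n - (k + 1) + 1 = n - k := by have := mem_range.1 hk; omega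
    rw [hk', ← Nat.cast_add_one (n - (k + 1)), hk']
    ring
  rw [e]
  linear_combination h1

/-- the error weights -/
noncomputable def TT (s : ℝ) (n : ℕ) : ℝ :=
  ∑ k ∈ range n, ((n + 1).choose (k + 1) : ℝ) * s ^ ((k + 1) * (n - k))

theorem TT_nonneg {s : ℝ} (hs : 0 ≤ s) (n : ℕ) : 0 ≤ TT s n :=
  sum_nonneg fun _ _ => by positivity

theorem TT_tendsto {s : ℝ} (hs : 0 ≤ s) (hs1 : s < 1) : Tendsto (TT s) atTop (𝓝 0) := by
  set σ := √s with hσ
  have h0 : 0 ≤ σ := Real.sqrt_nonneg _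
  have h1 : σ < 1 := (Real.sqrt_lt' one_pos).2 (by rwa [one_pow])
  have hsq : s = σ ^ 2 := (Real.sq_sqrt hs).symm
  have hb : ∀ n, TT s n ≤ 2 * (Real.exp (((n + 1 : ℕ) : ℝ) * σ ^ (n + 1)) - 1) := by
    intro n
    set τ := σ ^ (n + 1) with hτ
    have hτ0 : 0 ≤ τ := by positivity
    have e1 : ∑ k ∈ range n, ((n + 1).choose (k + 1) : ℝ) * τ ^ (k + 1) ≤
        Real.exp (((n + 1 : ℕ) : ℝ) * τ) - 1 := by
      have e2 := add_pow τ 1 (n + 1)
      rw [sum_range_succ', sum_range_succ] at e2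
      simp only [one_pow, mul_one, pow_zero, Nat.choose_zero_right, Nat.cast_one,
        Nat.choose_self] at e2
      have e3 : (τ + 1) ^ (n + 1) ≤ Real.exp (((n + 1 : ℕ) : ℝ) * τ) := by
        rw [Real.exp_nat_mul]
        exact pow_le_pow_left₀ (by positivity) (Real.add_one_le_exp τ) _
      have e4 : 0 ≤ τ ^ (n + 1) := by positivity
      simp only [mul_comm _ (τ ^ _)]
      linarith
    have e5 : ∑ k ∈ range n, ((n + 1).choose (k + 1) : ℝ) * τ ^ (n - k) =
        ∑ k ∈ range n, ((n + 1).choose (k + 1) : ℝ) * τ ^ (k + 1) := by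
      rw [← sum_range_reflect]
      refine sum_congr rfl fun k hk => ?_
      have hk' := mem_range.1 hk
      rw [show n - (n - 1 - k) = k + 1 by omega, show n - 1 - k + 1 = n + 1 - (k + 1) by omega,
        Nat.choose_symm (by omega)]
    calc TT s n ≤ ∑ k ∈ range n, (((n + 1).choose (k + 1) : ℝ) * τ ^ (k + 1) +
          ((n + 1).choose (k + 1) : ℝ) * τ ^ (n - k)) := by
          refine sum_le_sum fun k hk => ?_
          have hk' := mem_range.1 hk
          rw [← mul_add]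
          refine mul_le_mul_of_nonneg_left ?_ (Nat.cast_nonneg _)
          rw [hsq, hτ, ← pow_mul, ← pow_mul, ← pow_mul]
          obtain ⟨j, rfl⟩ : ∃ j, n = k + j := ⟨n - k, by omega⟩
          rw [Nat.add_sub_cancel_left]
          rcases le_total (k + 1) j with h | h
          · exact le_add_of_le_of_nonneg (pow_le_pow_of_le_one h0 h1.le (by nlinarith))
              (by positivity)
          · exact le_add_of_nonneg_of_le (by positivity)
              (pow_le_pow_of_le_one h0 h1.le (by nlinarith))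
      _ ≤ _ := by rw [sum_add_distrib, e5]; linarith
  refine squeeze_zero (TT_nonneg hs) hb ?_
  have := ((((tendsto_self_mul_const_pow_of_lt_one h0 h1).comp
    (tendsto_add_atTop_nat 1)).rexp).sub_const 1).const_mul 2
  simpa using this

theorem ee_ne {y : ℂ} (hy : y ≠ 0) (n : ℕ) : ee y n ≠ 0 :=
  div_ne_zero (pow_ne_zero _ hy) (by exact_mod_cast n.factorial_ne_zero)

theorem step {ρ Q B : ℝ} (hρ : 1 < ρ) {q y : ℂ} (hq : ‖q‖ ≤ Q) (hy : ρ ≤ ‖y‖) (n : ℕ)
    (hB : ∀ i, i ≤ n → ‖WW q y i‖ ≤ B * ‖ee y i‖) :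
    ‖WW q y (n + 1) - q * ee y (n + 1)‖ ≤ (1 + Q) * TT ρ⁻¹ n * B * ‖ee y (n + 1)‖ := by
  have hQ : 0 ≤ Q := (norm_nonneg _).trans hq
  have hB0 : 0 ≤ B := by
    have := hB 0 (Nat.zero_le _)
    rw [WW_zero, ee_zero, norm_one, mul_one] at this
    linarith
  have hρ0 : 0 < ρ := by linarith
  have hy0 : 0 < ‖y‖ := by linarith
  have hn : (0 : ℝ) < n + 1 := by positivity
  refine le_of_mul_le_mul_left ?_ hn
  have h1 : ((n : ℝ) + 1) * ‖WW q y (n + 1) - q * ee y (n + 1)‖ =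
      ‖((n : ℂ) + 1) * (WW q y (n + 1) - q * ee y (n + 1))‖ := by
    rw [norm_mul, ← Nat.cast_add_one, ← Nat.cast_add_one, Complex.norm_natCast]
  rw [h1, WW_rec, TT, mul_sum, sum_mul, sum_mul, mul_sum]
  refine (norm_sum_le _ _).trans (sum_le_sum fun k hk => ?_)
  have hk' := mem_range.1 hk
  have e1 : ‖q * (k + 1) - ((n - k : ℕ) : ℂ)‖ ≤ (n + 1) * (1 + Q) := by
    refine (norm_sub_le _ _).trans ?_
    rw [norm_mul, ← Nat.cast_add_one, Complex.norm_natCast, Complex.norm_natCast]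
    have a1 : ((k + 1 : ℕ) : ℝ) ≤ n + 1 := by exact_mod_cast (by omega : k + 1 ≤ n + 1)
    have a2 : ((n - k : ℕ) : ℝ) ≤ n + 1 := by exact_mod_cast (by omega : n - k ≤ n + 1)
    have a3 : ‖q‖ * ((k + 1 : ℕ) : ℝ) ≤ Q * (n + 1) := by gcongr
    linarith
  have e2 : ‖ee y (k + 1)‖ * ‖ee y (n - k)‖ ≤
      ((n + 1).choose (k + 1) : ℝ) * ρ⁻¹ ^ ((k + 1) * (n - k)) * ‖ee y (n + 1)‖ := by
    have h2 := congrArg norm (ee_mul y (k + 1) (n - k))
    rw [show k + 1 + (n - k) = n + 1 by omega, norm_mul, norm_mul, norm_mul, norm_pow,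
      Complex.norm_natCast] at h2
    rw [inv_pow, mul_right_comm, ← div_eq_mul_inv, le_div_iff₀ (by positivity),
      mul_comm _ ‖ee y (n + 1)‖, ← h2]
    gcongr
  rw [norm_mul, norm_mul]
  calc ‖ee y (k + 1)‖ * ‖WW q y (n - k)‖ * ‖q * (k + 1) - ((n - k : ℕ) : ℂ)‖
      ≤ ‖ee y (k + 1)‖ * (B * ‖ee y (n - k)‖) * ((n + 1) * (1 + Q)) := by
        gcongr
        exact hB _ (by omega)
    _ = ‖ee y (k + 1)‖ * ‖ee y (n - k)‖ * (B * ((n + 1) * (1 + Q))) := by ring
    _ ≤ ((n + 1).choose (k + 1) : ℝ) * ρ⁻¹ ^ ((k + 1) * (n - k)) * ‖ee y (n + 1)‖ *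
        (B * ((n + 1) * (1 + Q))) := by gcongr
    _ = _ := by ring

theorem bdd_of_rec {c : ℕ → ℝ} {Q : ℝ} (hc : Tendsto c atTop (𝓝 0)) :
    ∃ M : ℝ, 1 ≤ M ∧ ∀ P : ℕ → ℝ → Prop, P 0 1 → (∀ n B B', B ≤ B' → P n B → P n B') →
      (∀ n B, (∀ i, i ≤ n → P i B) → P (n + 1) (Q + c n * B)) → ∀ n, P n M := by
  have h1 : ∀ N : ℕ, ∃ M : ℝ, 1 ≤ M ∧ ∀ P : ℕ → ℝ → Prop, P 0 1 →
      (∀ n B B', B ≤ B' → P n B → P n B') →
      (∀ n B, (∀ i, i ≤ n → P i B) → P (n + 1) (Q + c n * B)) → ∀ n, n ≤ N → P n M := by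
    intro N
    induction N with
    | zero => exact ⟨1, le_rfl, fun P h0 _ _ n hn => by rwa [Nat.le_zero.1 hn]⟩
    | succ N ih =>
      obtain ⟨M, hM, h⟩ := ih
      refine ⟨max M (Q + c N * M), hM.trans (le_max_left _ _), fun P h0 h2 h3 n hn => ?_⟩
      rcases Nat.le_succ_iff.1 hn with hn | rfl
      · exact h2 _ _ _ (le_max_left _ _) (h P h0 h2 h3 n hn)
      · exact h2 _ _ _ (le_max_right _ _) (h3 N M (h P h0 h2 h3))
  obtain ⟨N, hN⟩ := eventually_atTop.1 (hc.eventually (ge_mem_nhds (by norm_num : (0 : ℝ) < 1 / 2)))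
  obtain ⟨M, hM, h⟩ := h1 N
  refine ⟨max M (2 * Q), hM.trans (le_max_left _ _), fun P h0 h2 h3 n => ?_⟩
  induction n using Nat.strong_induction_on with
  | _ n ih =>
    rcases le_or_gt n N with hn | hn
    · exact h2 _ _ _ (le_max_left _ _) (h P h0 h2 h3 n hn)
    · obtain ⟨m, rfl⟩ : ∃ m, n = m + 1 := ⟨n - 1, by omega⟩
      refine h2 _ _ _ ?_ (h3 m _ fun i hi => ih i (by omega))
      have a1 := hN m (by omega)
      have a2 := le_max_right M (2 * Q)
      have a3 : 0 ≤ max M (2 * Q) := by linarith [le_max_left M (2 * Q)]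
      nlinarith

theorem approx {ρ : ℝ} (hρ : 1 < ρ) (Q : ℝ) :
    ∃ M : ℝ, 1 ≤ M ∧ (∀ q y : ℂ, ‖q‖ ≤ Q → ρ ≤ ‖y‖ → ∀ n, ‖WW q y n‖ ≤ M * ‖ee y n‖) ∧
      ∀ η : ℝ, 0 < η → ∀ᶠ n : ℕ in atTop, ∀ q y : ℂ, ‖q‖ ≤ Q → ρ ≤ ‖y‖ →
        ‖WW q y n - q * ee y n‖ ≤ η * ‖ee y n‖ := by
  have hs0 : 0 ≤ ρ⁻¹ := inv_nonneg.2 (by linarith)
  have hT := (TT_tendsto hs0 (inv_lt_one_of_one_lt₀ hρ)).const_mul (1 + Q)
  rw [mul_zero] at hT
  obtain ⟨M, hM, h⟩ := bdd_of_rec (Q := Q) hT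
  have hb : ∀ q y : ℂ, ‖q‖ ≤ Q → ρ ≤ ‖y‖ → ∀ n, ‖WW q y n‖ ≤ M * ‖ee y n‖ := by
    intro q y hq hy
    refine h (fun n B => ‖WW q y n‖ ≤ B * ‖ee y n‖) (by simp [WW_zero, ee_zero])
      (fun n B B' hB h1 => h1.trans (by gcongr)) fun n B hB => ?_
    have h1 := step hρ hq hy n hB
    have h2 := norm_le_insert' (WW q y (n + 1)) (q * ee y (n + 1))
    have h3 : ‖q * ee y (n + 1)‖ ≤ Q * ‖ee y (n + 1)‖ := by rw [norm_mul]; gcongr
    show ‖WW q y (n + 1)‖ ≤ _
    linarith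
  refine ⟨M, hM, hb, fun η hη => ?_⟩
  have hT2 := hT.mul_const M
  rw [zero_mul] at hT2
  obtain ⟨N, hN⟩ := eventually_atTop.1 (hT2.eventually (ge_mem_nhds hη))
  filter_upwards [eventually_gt_atTop N] with n hn q y hq hy
  obtain ⟨m, rfl⟩ : ∃ m, n = m + 1 := ⟨n - 1, by omega⟩
  refine (step hρ hq hy m fun i _ => hb q y hq hy i).trans ?_
  exact mul_le_mul_of_nonneg_right (hN m (by omega)) (norm_nonneg _)

theorem outside (z : ℂ) (hz : 1 < ‖z - 1‖) :
    ∃ ε : ℝ, 0 < ε ∧ ∀ᶠ n : ℕ in atTop, ∀ q : ℂ, ‖q - z‖ < ε → WW q (1 - q) n ≠ 0 := by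
  set ε := (‖z - 1‖ - 1) / 2 with hε
  have hε0 : 0 < ε := by rw [hε]; linarith
  obtain ⟨M, -, -, h⟩ := approx (ρ := 1 + ε) (by linarith) (‖z‖ + ε)
  refine ⟨ε, hε0, ?_⟩
  filter_upwards [h ε hε0] with n hn q hq h0
  have a1 : ‖q‖ ≤ ‖z‖ + ε := by linarith [norm_le_insert' q z]
  have a2 : 1 + ε ≤ ‖1 - q‖ := by
    have := norm_sub_le_norm_sub_add_norm_sub z q 1
    rw [norm_sub_rev z q, norm_sub_rev q 1] at this
    linarith
  have a3 : ε < ‖q‖ := by
    have := norm_sub_le z 1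
    have := norm_le_insert' z q
    rw [norm_sub_rev z q] at this
    rw [norm_one] at *
    linarith
  have a4 := hn q (1 - q) a1 a2
  rw [h0, zero_sub, norm_neg, norm_mul] at a4
  have a5 : 0 < ‖ee (1 - q) n‖ := norm_pos_iff.2 (ee_ne (norm_pos_iff.1 (by linarith)) n)
  nlinarith

theorem differentiable_WW (n : ℕ) : Differentiable ℂ fun y => WW (1 - y) y n := by
  induction n using Nat.strong_induction_on with
  | _ n ih =>
    rcases n with _ | n
    · simp [WW_zero]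
    · have h : ((n : ℂ) + 1) ≠ 0 := by exact_mod_cast n.succ_ne_zero
      have : (fun y => WW (1 - y) y (n + 1)) = fun y => ((1 - y) * ∑ k ∈ range (n + 1),
          (y - 1) ^ k * aa y k * WW (1 - y) y (n - k)) / ((n : ℂ) + 1) := by
        funext y; rw [← WW_succ]; field_simp
      rw [this]
      refine Differentiable.div_const (Differentiable.mul (by fun_prop)
        (Differentiable.fun_sum fun k _ => ?_)) _
      exact ((by fun_prop : Differentiable ℂ fun y : ℂ => (y - 1) ^ k).mul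
        (differentiable_aa k)).mul (ih (n - k) (by omega))

theorem norm_WW_le {y : ℂ} (hy : ‖y‖ ≤ 1) (n : ℕ) :
    ‖WW (1 - y) y n‖ ≤ (2 * Real.exp 1) ^ n := by
  have h2 : ‖1 - y‖ ≤ 2 := by linarith [norm_sub_le 1 y, norm_one (α := ℂ)]
  induction n using Nat.strong_induction_on with
  | _ n ih =>
    rcases n with _ | n
    · simp [WW_zero]
    · have hn : (0 : ℝ) < n + 1 := by positivity
      refine le_of_mul_le_mul_left ?_ hn
      have h1 : ((n : ℝ) + 1) * ‖WW (1 - y) y (n + 1)‖ = ‖((n : ℂ) + 1) * WW (1 - y) y (n + 1)‖ := by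
        rw [norm_mul, ← Nat.cast_add_one, ← Nat.cast_add_one, Complex.norm_natCast]
      rw [h1, WW_succ, norm_mul]
      have h3 : ‖∑ k ∈ range (n + 1), (y - 1) ^ k * aa y k * WW (1 - y) y (n - k)‖ ≤
          (n + 1) * (Real.exp 1 * (2 * Real.exp 1) ^ n) := by
        refine (norm_sum_le _ _).trans ((sum_le_card_nsmul _ _ _ fun k hk => ?_).trans_eq
          (by rw [card_range, nsmul_eq_mul]; push_cast; rfl))
        have hk' := mem_range.1 hk
        rw [norm_mul, norm_mul, norm_pow, norm_sub_rev]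
        calc ‖1 - y‖ ^ k * ‖aa y k‖ * ‖WW (1 - y) y (n - k)‖
            ≤ 2 ^ k * Real.exp (k + 1) * (2 * Real.exp 1) ^ (n - k) := by
              gcongr
              · exact norm_aa_le hy k
              · exact ih _ (by omega)
          _ = Real.exp 1 * ((2 * Real.exp 1) ^ k * (2 * Real.exp 1) ^ (n - k)) := by
              rw [Real.exp_add, ← mul_one (k : ℝ), Real.exp_nat_mul, mul_pow 2 _ k]; ring
          _ = _ := by rw [← pow_add, Nat.add_sub_cancel' (by omega)]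
      calc _ ≤ 2 * ((n + 1) * (Real.exp 1 * (2 * Real.exp 1) ^ n)) := by gcongr
        _ = _ := by ring

theorem norm_WW_le_two : ∃ M : ℝ, 1 ≤ M ∧ ∀ (n : ℕ) (y : ℂ), ‖y‖ ≤ 2 →
    ‖WW (1 - y) y n‖ ≤ M * 2 ^ (n * n) := by
  obtain ⟨M, hM, h, -⟩ := approx (ρ := 2) (by norm_num) 3
  refine ⟨M, hM, fun n y hy => ?_⟩
  refine Complex.norm_le_of_forall_mem_frontier_norm_le (U := ball (0 : ℂ) 2) isBounded_ball
    (differentiable_WW n).diffContOnCl (fun w hw => ?_) ?_
  · rw [frontier_ball _ (by norm_num), mem_sphere_zero_iff_norm] at hw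
    refine (h (1 - w) w (by linarith [norm_sub_le 1 w, norm_one (α := ℂ)]) hw.ge n).trans ?_
    refine mul_le_mul_of_nonneg_left ?_ (by linarith)
    rw [ee, norm_div, norm_pow, hw, Complex.norm_natCast]
    refine (div_le_self (by positivity) (by exact_mod_cast n.factorial_pos)).trans ?_
    refine pow_le_pow_right₀ (by norm_num) ?_
    rw [Nat.choose_two_right]
    exact (Nat.div_le_self _ _).trans (Nat.mul_le_mul_left _ (Nat.sub_le _ _))
  · rw [closure_ball _ (by norm_num)]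
    exact mem_closedBall_zero_iff.2 hy

theorem borel {h : ℂ → ℂ} {c : ℂ} {R M : ℝ} (hM : 0 < M) (hR : 0 < R)
    (hd : DifferentiableOn ℂ h (ball c R)) (h0 : h c = 0) (hre : ∀ z ∈ ball c R, (h z).re ≤ M)
    {z : ℂ} {r : ℝ} (hr : r < R) (hz : ‖z - c‖ ≤ r) : ‖h z‖ ≤ 2 * M * r / (R - r) := by
  have hm : ∀ w ∈ ball (0 : ℂ) R, c + w ∈ ball c R := fun w hw => by
    rw [mem_ball_iff_norm, add_sub_cancel_left]; exact mem_ball_zero_iff.1 hw
  have := Complex.borelCaratheodory_zero (f := fun w => h (c + w)) hM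
    (hd.comp (by fun_prop) hm) (fun w hw => hre _ (hm w hw)) hR (z := z - c)
    (mem_ball_zero_iff.2 (hz.trans_lt hr)) (by simpa using h0)
  rw [add_sub_cancel] at this
  refine this.trans ?_
  have h1 := norm_nonneg (z - c)
  have h2 : 0 ≤ r := h1.trans hz
  gcongr

theorem arith1 {a b n : ℝ} (hn : 2 ≤ n) :
    a + n * n * Real.log 2 - n * b ≤ (|a| + 1 + |b|) * n ^ 2 := by
  have a1 := le_abs_self a
  have a2 : Real.log 2 ≤ 1 := by linarith [Real.log_two_lt_d9]
  have a4 : n ≤ n ^ 2 := by nlinarith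
  have a5 := mul_le_mul_of_nonneg_left a2 (mul_self_nonneg n)
  have a6 := mul_le_mul_of_nonneg_left a4 (abs_nonneg b)
  have a7 := mul_le_mul_of_nonneg_left (by linarith : (1 : ℝ) ≤ n ^ 2) (abs_nonneg a)
  have a8 := mul_le_mul_of_nonneg_left (neg_abs_le b) (by linarith : 0 ≤ n)
  nlinarith

theorem arith2 {a b n : ℝ} (hn : 2 ≤ n) : n * a - n * b ≤ (|a| + 1 + |b|) * n := by
  have a1 := mul_le_mul_of_nonneg_left (le_abs_self a) (by linarith : 0 ≤ n)
  have a8 := mul_le_mul_of_nonneg_left (neg_abs_le b) (by linarith : 0 ≤ n)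
  nlinarith

theorem arith3 {n : ℕ} (hn : (2 : ℝ) ≤ n) {k d E lam X : ℝ} (hlam : 0 < lam)
    (hs : 4 * (|k| + E + 2 + |d|) / lam < √(n : ℝ)) (hX : X ≤ E * √(n : ℝ) ^ 3)
    (h : d + (n.choose 2 * lam - Real.log n.factorial) ≤ n * k + X) : False := by
  set s := √(n : ℝ) with hsdef
  have hs2 : (n : ℝ) = s ^ 2 := (Real.sq_sqrt (by positivity)).symm
  have hs0 : 0 ≤ s := Real.sqrt_nonneg _
  have hs1 : 1 ≤ s := by nlinarith
  have hf : (0 : ℝ) < n.factorial := by exact_mod_cast n.factorial_pos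
  have q6 : Real.log n.factorial ≤ 2 * s ^ 3 := by
    have a1 : (n.factorial : ℝ) ≤ (n : ℝ) ^ n := by exact_mod_cast n.factorial_le_pow
    have a2 := Real.log_le_log hf a1
    rw [Real.log_pow] at a2
    have a3 : Real.log n = 2 * Real.log s := by rw [hs2, Real.log_pow]; norm_num
    have a4 := Real.log_le_sub_one_of_pos (by linarith : 0 < s)
    rw [a3, hs2] at a2
    have a5 := mul_le_mul_of_nonneg_left (by linarith : Real.log s ≤ s) (sq_nonneg s)
    linarith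
  have q7 : s ^ 4 / 4 ≤ (n.choose 2 : ℝ) := by
    rw [Nat.cast_choose_two, show s ^ 4 = (n : ℝ) ^ 2 by rw [hs2]; ring]
    have := mul_le_mul_of_nonneg_left hn (Nat.cast_nonneg (α := ℝ) n)
    linarith
  rw [div_lt_iff₀ hlam] at hs
  have s3 : 1 ≤ s ^ 3 := one_le_pow₀ hs1
  have s4 : s ^ 2 ≤ s ^ 3 := pow_le_pow_right₀ hs1 (by norm_num)
  have a1 : n * k ≤ |k| * s ^ 3 := by
    rw [hs2]
    have := mul_le_mul_of_nonneg_left (le_abs_self k) (sq_nonneg s)
    have := mul_le_mul_of_nonneg_left s4 (abs_nonneg k)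
    linarith
  have a2 : -d ≤ |d| * s ^ 3 := by
    have := mul_le_mul_of_nonneg_left s3 (abs_nonneg d)
    linarith [neg_abs_le d]
  have a3 := mul_le_mul_of_nonneg_right q7 hlam.le
  have a4 := mul_lt_mul_of_pos_right hs (by linarith : 0 < s ^ 3)
  linarith

theorem core (hin : ∀ z : ℂ, ‖z - 1‖ < 1 → z ≠ 1 →
      ∃ κ : ℝ, 0 < κ ∧ ∀ᶠ n : ℕ in atTop, κ ^ n ≤ ‖WW z (1 - z) n‖)
    (y0 : ℂ) (hy0 : ‖y0‖ = 1) (δ : ℝ) (hδ : 0 < δ) (hδ1 : 20 * δ ≤ 1)
    (hne : 20 * δ ≤ ‖1 - y0‖) :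
    ∀ᶠ n : ℕ in atTop, ∃ y : ℂ, ‖y - y0‖ < 20 * δ ∧ WW (1 - y) y n = 0 := by
  set c : ℂ := ((1 - 2 * δ : ℝ) : ℂ) * y0 with hc
  set y1 : ℂ := ((1 + δ : ℝ) : ℂ) * y0 with hy1
  have nc : ‖c‖ = 1 - 2 * δ := by
    rw [hc, norm_mul, hy0, mul_one, Complex.norm_real, Real.norm_of_nonneg (by linarith)]
  have ny1 : ‖y1‖ = 1 + δ := by
    rw [hy1, norm_mul, hy0, mul_one, Complex.norm_real, Real.norm_of_nonneg (by linarith)]
  have d1 : ‖c - y0‖ = 2 * δ := by
    rw [show c - y0 = -(((2 * δ : ℝ) : ℂ) * y0) by rw [hc]; push_cast; ring, norm_neg, norm_mul,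
      hy0, mul_one, Complex.norm_real, Real.norm_of_nonneg (by linarith)]
  have d2 : ‖y1 - c‖ = 3 * δ := by
    rw [show y1 - c = ((3 * δ : ℝ) : ℂ) * y0 by rw [hc, hy1]; push_cast; ring, norm_mul,
      hy0, mul_one, Complex.norm_real, Real.norm_of_nonneg (by linarith)]
  have d3 : ‖y1 - y0‖ = δ := by
    rw [show y1 - y0 = ((δ : ℝ) : ℂ) * y0 by rw [hy1]; push_cast; ring, norm_mul,
      hy0, mul_one, Complex.norm_real, Real.norm_of_nonneg (by linarith)]
  obtain ⟨κ, hκ, hlow⟩ := hin (1 - c) (by rw [sub_sub_cancel_left, norm_neg, nc]; linarith)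
    (fun h => by
      have : c = 0 := by linear_combination -h
      rw [this, norm_zero] at nc
      linarith)
  simp only [sub_sub_cancel] at hlow
  obtain ⟨M, hM, hbig⟩ := norm_WW_le_two
  obtain ⟨-, -, -, happ⟩ := approx (ρ := 1 + δ) (by linarith) 3
  set K : ℝ := 2 * Real.exp 1 with hK
  have hK0 : 0 < K := by positivity
  set A : ℝ := |Real.log M| + 1 + |Real.log κ| with hA
  set B : ℝ := |Real.log K| + 1 + |Real.log κ| with hB
  have hA0 : 0 < A := by positivity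
  have hB0 : 0 < B := by positivity
  set lam : ℝ := Real.log (1 + δ) with hlam
  have hlam0 : 0 < lam := Real.log_pos (by linarith)
  set D : ℝ := |Real.log K| + √(6 * A * B) + 2 + |Real.log δ| with hD
  have hs : Tendsto (fun n : ℕ => √(n : ℝ)) atTop atTop :=
    Real.tendsto_sqrt_atTop.comp tendsto_natCast_atTop_atTop
  filter_upwards [hlow, happ δ hδ, eventually_ge_atTop 2, hs.eventually_gt_atTop (4 * D / lam)]
    with n h1 h2 hn2 hsn
  by_contra hcon
  push Not at hcon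
  have hn : (2 : ℝ) ≤ n := by exact_mod_cast hn2
  obtain ⟨h, hd, h0, hexp⟩ := exists_log (f := fun y => WW (1 - y) y n) (c := c) (r := 16 * δ)
    (by positivity) (differentiable_WW n).differentiableOn fun w hw => hcon w (by
      have := norm_sub_le_norm_sub_add_norm_sub w c y0
      rw [mem_ball_iff_norm] at hw
      linarith)
  have hc0 : 0 < ‖WW (1 - c) c n‖ := (pow_pos hκ n).trans_le h1
  have hlc : n * Real.log κ ≤ Real.log ‖WW (1 - c) c n‖ := by
    rw [← Real.log_pow]; exact Real.log_le_log (pow_pos hκ n) h1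
  have hre : ∀ w ∈ ball c (16 * δ), ∀ X : ℝ, ‖WW (1 - w) w n‖ ≤ X →
      (h w).re ≤ Real.log X - n * Real.log κ := by
    intro w hw X hX
    rw [hexp w hw, norm_mul, Complex.norm_exp] at hX
    have := Real.log_le_log (mul_pos hc0 (Real.exp_pos _)) hX
    rw [Real.log_mul hc0.ne' (Real.exp_pos _).ne', Real.log_exp] at this
    linarith
  have b1 : ∀ w, ‖w - c‖ ≤ 9 * δ → ‖h w‖ ≤ 3 * A * n ^ 2 := by
    intro w hw
    refine (borel (M := A * n ^ 2) (by positivity) (by positivity) hd h0 (fun u hu => ?_)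
      (by linarith) hw).trans ?_
    · have hu' := mem_ball_iff_norm.1 hu
      refine (hre u hu _ (hbig n u (by linarith [norm_le_insert' u c]))).trans ?_
      rw [Real.log_mul (by linarith) (by positivity), Real.log_pow]
      push_cast
      exact arith1 hn
    · rw [div_le_iff₀ (by linarith)]
      have : 0 < A * n ^ 2 * δ := by positivity
      linarith
  have b2 : ∀ w, ‖w - c‖ ≤ δ → ‖h w‖ ≤ 2 * B * n := by
    intro w hw
    refine (borel (M := B * n) (R := 2 * δ) (by positivity) (by positivity)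
      (hd.mono (ball_subset_ball (by linarith))) h0 (fun u hu => ?_) (by linarith) hw).trans ?_
    · have hu' := mem_ball_iff_norm.1 hu
      refine (hre u (ball_subset_ball (by linarith) hu) _
        (norm_WW_le (by linarith [norm_le_insert' u c]) n)).trans ?_
      rw [Real.log_pow]
      exact arith2 hn
    · rw [div_le_iff₀ (by linarith)]
      linarith
  have b3 := three_circles (f := h) (c := c) (r0 := δ) (r2 := 9 * δ) (r3 := 16 * δ) hδ
    (by linarith) (by linarith) hd b2 b1 (z := y1) (by linarith) (by linarith)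
  have ex : (Real.log ‖y1 - c‖ - Real.log δ) / (Real.log (9 * δ) - Real.log δ) = 1 / 2 := by
    have l3 : 0 < Real.log 3 := Real.log_pos (by norm_num)
    rw [d2, Real.log_mul (by norm_num) hδ.ne', Real.log_mul (by norm_num) hδ.ne',
      show (9 : ℝ) = 3 ^ 2 by norm_num, Real.log_pow]
    field_simp
    push_cast
    ring
  have b4 : ‖h y1‖ ≤ √(6 * A * B) * √(n : ℝ) ^ 3 := by
    set s := √(n : ℝ) with hsdef
    have hs2 : (n : ℝ) = s ^ 2 := (Real.sq_sqrt (by positivity)).symm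
    have hs0 : 0 ≤ s := Real.sqrt_nonneg _
    rw [ex, show (1 : ℝ) - 1 / 2 = 1 / 2 by norm_num, ← Real.mul_rpow (by positivity)
      (by positivity), ← Real.sqrt_eq_rpow] at b3
    refine b3.trans_eq ?_
    rw [show 2 * B * n * (3 * A * (n : ℝ) ^ 2) = 6 * A * B * (s ^ 3) ^ 2 by rw [hs2]; ring,
      Real.sqrt_mul (by positivity), Real.sqrt_sq (by positivity)]
  -- the lower bound at `y1`
  have q1 : 19 * δ ≤ ‖1 - y1‖ := by
    have := norm_sub_le_norm_sub_add_norm_sub 1 y1 y0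
    linarith
  have q2 := h2 (1 - y1) y1 (by linarith [norm_sub_le 1 y1, norm_one (α := ℂ)]) ny1.ge
  have q3 : δ * ‖ee y1 n‖ ≤ ‖WW (1 - y1) y1 n‖ := by
    have a1 := norm_le_insert (WW (1 - y1) y1 n) ((1 - y1) * ee y1 n)
    rw [norm_mul] at a1
    have a2 := mul_le_mul_of_nonneg_right q1 (norm_nonneg (ee y1 n))
    have a3 := mul_nonneg hδ.le (norm_nonneg (ee y1 n))
    linarith
  have q4 : ‖WW (1 - y1) y1 n‖ ≤ K ^ n * Real.exp ‖h y1‖ := by
    rw [hexp y1 (by rw [mem_ball_iff_norm]; linarith), norm_mul]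
    exact mul_le_mul (norm_WW_le (by linarith) n) (Complex.norm_exp_le_exp_norm _)
      (norm_nonneg _) (by positivity)
  have hf : (0 : ℝ) < n.factorial := by exact_mod_cast n.factorial_pos
  have q5 := Real.log_le_log (mul_pos hδ (norm_pos_iff.2 (ee_ne (norm_pos_iff.1 (by linarith)) n)))
    (q3.trans q4)
  rw [ee, norm_div, norm_pow, ny1, Complex.norm_natCast, Real.log_mul hδ.ne' (by positivity),
    Real.log_div (by positivity) hf.ne', Real.log_pow, Real.log_mul (by positivity)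
    (Real.exp_pos _).ne', Real.log_pow, Real.log_exp] at q5
  exact arith3 hn hlam0 hsn b4 q5

theorem oncircle (hin : ∀ z : ℂ, ‖z - 1‖ < 1 → z ≠ 1 →
      ∃ κ : ℝ, 0 < κ ∧ ∀ᶠ n : ℕ in atTop, κ ^ n ≤ ‖WW z (1 - z) n‖)
    (z : ℂ) (hz : ‖z - 1‖ = 1) (ε : ℝ) (hε : 0 < ε) :
    ∀ᶠ n : ℕ in atTop, ∃ q : ℂ, ‖q - z‖ < ε ∧ q ≠ 0 ∧ WW q (1 - q) n = 0 := by
  obtain ⟨y0, hy0, hy1, hy2⟩ : ∃ y0 : ℂ, ‖y0‖ = 1 ∧ y0 ≠ 1 ∧ ‖1 - y0 - z‖ ≤ ε / 2 := by
    by_cases h : z = 0
    · have ht : 0 < min (ε / 2) 1 := lt_min (by linarith) one_pos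
      refine ⟨Complex.exp (Complex.I * (min (ε / 2) 1 : ℝ)), Complex.norm_exp_I_mul_ofReal _,
        fun h1 => ?_, ?_⟩
      · have := congrArg Complex.im h1
        rw [mul_comm, Complex.exp_ofReal_mul_I_im, Complex.one_im] at this
        exact (Real.sin_pos_of_pos_of_lt_pi ht
          ((min_le_right _ _).trans_lt (by linarith [Real.pi_gt_three]))).ne' this
      · rw [h, sub_zero, norm_sub_rev]
        refine Real.norm_exp_I_mul_ofReal_sub_one_le.trans ?_
        rw [Real.norm_of_nonneg ht.le]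
        exact min_le_left _ _
    · exact ⟨1 - z, by rw [norm_sub_rev, hz], fun h1 => h (by linear_combination -h1),
        by simp [half_pos hε |>.le]⟩
  have hp : 0 < ‖1 - y0‖ := norm_pos_iff.2 (sub_ne_zero.2 hy1.symm)
  set e := min (min (ε / 2) 1) ‖1 - y0‖ with he
  have e0 : 0 < e := lt_min (lt_min (by linarith) one_pos) hp
  have e1 : e ≤ ε / 2 := (min_le_left _ _).trans (min_le_left _ _)
  have e2 : e ≤ 1 := (min_le_left _ _).trans (min_le_right _ _)
  have e3 : e ≤ ‖1 - y0‖ := min_le_right _ _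
  filter_upwards [core hin y0 hy0 (e / 20) (by positivity) (by linarith) (by linarith)]
    with n ⟨y, h1, h2⟩
  refine ⟨1 - y, ?_, fun h => ?_, by rwa [sub_sub_cancel]⟩
  · have := norm_sub_le_norm_sub_add_norm_sub (1 - y) (1 - y0) z
    rw [sub_sub_sub_cancel_left, norm_sub_rev y0 y] at this
    linarith
  · rw [← sub_eq_zero.1 h] at h1
    linarith

end Pool.Agent.MP_39ed1d_co.H88
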